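import Mathlib
import Pool.Agent.Run7.h670.MY.StmN

/-!
# The March-Young bound (helper670), piece N_BATH: the bathtub inequality on the line

`t_N_BATH : N_BATH`.
-/

set_option autoImplicit false

open MeasureTheory Set
open scoped ENNReal RealInnerProductSpace ContDiff

namespace Run7.h958.MY

open Pool.Agent.Run7.h670.MY (N_BATH)

/-- the integral of the tent function -/
theorem tent (r : ℝ) (hr : 0 ≤ r) :
    ∫⁻ s : ℝ, ENNReal.ofReal (r - |s|) = ENNReal.ofReal (r ^ 2) := by
  have h1 : ∫⁻ s : ℝ, ENNReal.ofReal (r - |s|) =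
      ∫⁻ s in Icc (-r) r, ENNReal.ofReal (r - |s|) := by
    rw [← lintegral_indicator measurableSet_Icc]
    congr 1
    funext s
    by_cases hs : s ∈ Icc (-r) r
    · rw [indicator_of_mem hs]
    · rw [indicator_of_notMem hs]
      apply ENNReal.ofReal_of_nonpos
      rw [mem_Icc, ← abs_le, not_le] at hs
      linarith
  have hc : Continuous fun s : ℝ => r - |s| := by fun_prop
  have hint : IntegrableOn (fun s : ℝ => r - |s|) (Icc (-r) r) := hc.continuousOn.integrableOn_Icc
  rw [h1, ← ofReal_integral_eq_lintegral_ofReal hint]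
  · congr 1
    rw [integral_Icc_eq_integral_Ioc, ← intervalIntegral.integral_of_le (by linarith),
      ← intervalIntegral.integral_add_adjacent_intervals (b := 0) (hc.intervalIntegrable _ _)
        (hc.intervalIntegrable _ _)]
    have e1 : ∫ s in (-r)..0, (r - |s|) = ∫ s in (-r)..0, (r + s) := by
      apply intervalIntegral.integral_congr
      intro s hs
      rw [uIcc_of_le (by linarith)] at hs
      simp only
      rw [abs_of_nonpos hs.2]
      ring
    have e2 : ∫ s in (0 : ℝ)..r, (r - |s|) = ∫ s in (0 : ℝ)..r, (r - s) := by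
      apply intervalIntegral.integral_congr
      intro s hs
      rw [uIcc_of_le hr] at hs
      simp only
      rw [abs_of_nonneg hs.1]
    rw [e1, e2, intervalIntegral.integral_add (by simp) (by simp),
      intervalIntegral.integral_sub (by simp) (by simp)]
    simp only [intervalIntegral.integral_const, integral_id, smul_eq_mul]
    ring
  · refine (ae_restrict_iff' measurableSet_Icc).2 (Filter.Eventually.of_forall fun s hs => ?_)
    have := abs_le.2 hs
    simp only [Pi.zero_apply]
    linarith

/-- **N_BATH** -/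
theorem t_N_BATH : N_BATH := by
  intro g A hg hA hgA
  rcases eq_or_ne A 0 with rfl | hA0
  · have : ∀ s, g s = 0 := fun s => le_antisymm (hgA s) bot_le
    simp [this]
  set L := ∫⁻ s, g s with hLdef
  set J := ∫⁻ s, ENNReal.ofReal |s| * g s with hJdef
  rcases eq_or_ne J ⊤ with hJ | hJ
  · rw [hJ, ENNReal.mul_top (mul_ne_zero (by norm_num) hA0)]
    exact le_top
  have key : ∀ r : ℝ, 0 ≤ r → ENNReal.ofReal r * L ≤ J + A * ENNReal.ofReal (r ^ 2) := by
    intro r hr
    calc ENNReal.ofReal r * L = ∫⁻ s, ENNReal.ofReal r * g s := (lintegral_const_mul _ hg).symm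
      _ ≤ ∫⁻ s, (ENNReal.ofReal |s| * g s + A * ENNReal.ofReal (r - |s|)) := by
          apply lintegral_mono
          intro s
          by_cases h : r ≤ |s|
          · calc ENNReal.ofReal r * g s ≤ ENNReal.ofReal |s| * g s := by gcongr
              _ ≤ _ := le_self_add
          · rw [not_le] at h
            have e : ENNReal.ofReal r = ENNReal.ofReal |s| + ENNReal.ofReal (r - |s|) := by
              rw [← ENNReal.ofReal_add (abs_nonneg _) (by linarith)]
              congr 1
              ring
            show ENNReal.ofReal r * g s ≤ ENNReal.ofReal |s| * g s + A * ENNReal.ofReal (r - |s|)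
            rw [e, add_mul, mul_comm A]
            gcongr
            exact hgA s
      _ = J + A * ∫⁻ s, ENNReal.ofReal (r - |s|) := by
          rw [lintegral_add_left (by fun_prop), lintegral_const_mul' _ _ hA]
      _ = _ := by rw [tent r hr]
  have hL : L ≠ ⊤ := by
    have h1 := key 1 zero_le_one
    rw [ENNReal.ofReal_one, one_mul] at h1
    exact ne_top_of_le_ne_top (ENNReal.add_ne_top.2 ⟨hJ, ENNReal.mul_ne_top hA ENNReal.ofReal_ne_top⟩) h1
  have a0 : 0 < A.toReal := ENNReal.toReal_pos hA0 hA
  have keyR : ∀ r : ℝ, 0 ≤ r → r * L.toReal ≤ J.toReal + A.toReal * r ^ 2 := by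
    intro r hr
    have hft : A * ENNReal.ofReal (r ^ 2) ≠ ⊤ := ENNReal.mul_ne_top hA ENNReal.ofReal_ne_top
    have h1 := ENNReal.toReal_mono (ENNReal.add_ne_top.2 ⟨hJ, hft⟩) (key r hr)
    rwa [ENNReal.toReal_mul, ENNReal.toReal_add hJ hft, ENNReal.toReal_mul,
      ENNReal.toReal_ofReal hr, ENNReal.toReal_ofReal (sq_nonneg r)] at h1
  have h2 := keyR (L.toReal / (2 * A.toReal)) (by positivity)
  have h3 : L.toReal ^ 2 ≤ 4 * A.toReal * J.toReal := by
    have e1 : L.toReal / (2 * A.toReal) * L.toReal = L.toReal ^ 2 / (2 * A.toReal) := by ring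
    have e2 : A.toReal * (L.toReal / (2 * A.toReal)) ^ 2 = L.toReal ^ 2 / (4 * A.toReal) := by
      field_simp
      ring
    rw [e1, e2] at h2
    have e3 : L.toReal ^ 2 / (2 * A.toReal) = L.toReal ^ 2 / (4 * A.toReal) + L.toReal ^ 2 / (4 * A.toReal) := by
      field_simp
      ring
    have h4 : L.toReal ^ 2 / (4 * A.toReal) ≤ J.toReal := by linarith
    rw [div_le_iff₀ (by positivity)] at h4
    linarith
  refine (ENNReal.toReal_le_toReal (ENNReal.pow_ne_top hL)
    (ENNReal.mul_ne_top (ENNReal.mul_ne_top (by norm_num) hA) hJ)).1 ?_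
  rw [ENNReal.toReal_pow, ENNReal.toReal_mul, ENNReal.toReal_mul]
  simpa using h3

end Run7.h958.MY
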